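import Mathlib.RingTheory.DedekindDomain.FiniteAdeleRing
import Pool.Agent.Helper45.L.Defs

/-!
# Project L, block AR: finitely many bad primes
-/

set_option autoImplicit false

namespace Pool.Agent.L

open NumberField IsDedekindDomain
open Pool.Agent.HG (Pr)

/-- a root of a monic polynomial with coefficients in the valuation ring -/
private theorem mem71 {E : Type} [Field E] (O : ValuationSubring E) (P : Polynomial E) (hP : P.Monic)
    (hc : ∀ i, P.coeff i ∈ O) {s : E} (hs : P.eval s = 0) : s ∈ O := by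
  rw [← ValuationSubring.valuation_le_one_iff]
  by_contra hcon
  rw [not_le] at hcon
  have h0 : s ≠ 0 := by
    rintro rfl
    rw [map_zero] at hcon
    exact absurd hcon (not_lt.2 zero_le_one)
  have hn : 0 < P.natDegree := by
    rcases Nat.eq_zero_or_pos P.natDegree with h1 | h1
    · rw [hP.natDegree_eq_zero.1 h1, Polynomial.eval_one] at hs
      exact absurd hs one_ne_zero
    · exact h1
  rw [Polynomial.eval_eq_sum_range, Finset.sum_range_succ, hP.coeff_natDegree, one_mul] at hs
  have h2 : s ^ P.natDegree = - ∑ i ∈ Finset.range P.natDegree, P.coeff i * s ^ i := by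
    linear_combination hs
  have h3 : O.valuation (∑ i ∈ Finset.range P.natDegree, P.coeff i * s ^ i) < O.valuation s ^ P.natDegree := by
    refine Valuation.map_sum_lt _ (pow_ne_zero _ ((Valuation.ne_zero_iff _).2 h0)) fun i hi => ?_
    rw [map_mul, map_pow]
    have h4 : O.valuation (P.coeff i) ≤ 1 := (ValuationSubring.valuation_le_one_iff _ _).2 (hc i)
    calc O.valuation (P.coeff i) * O.valuation s ^ i ≤ 1 * O.valuation s ^ i := mul_le_mul_left h4 _
      _ = O.valuation s ^ i := one_mul _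
      _ < O.valuation s ^ P.natDegree := pow_lt_pow_right₀ hcon (Finset.mem_range.1 hi)
  have h5 := congrArg O.valuation h2
  rw [map_pow, Valuation.map_neg] at h5
  rw [h5] at h3
  exact absurd h3 (lt_irrefl _)

variable {k E : Type} [Field k] [NumberField k] [Field E] [Algebra k E] [Algebra.IsAlgebraic k E]

private theorem integral71 (s : E) : ∃ Bad : Set (Pr k), Bad.Finite ∧ ∀ v ∉ Bad, ∀ O : ValuationSubring E,
    OverV v O → s ∈ O := by
  refine ⟨⋃ i ∈ Finset.range ((minpoly k s).natDegree + 1), HeightOneSpectrum.Support (𝓞 k) ((minpoly k s).coeff i),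
    Set.Finite.biUnion (Finset.finite_toSet _) fun i _ => HeightOneSpectrum.Support.finite (𝓞 k) _, fun v hv O hO => ?_⟩
  have hint : IsIntegral k s := Algebra.IsIntegral.isIntegral s
  refine mem71 O ((minpoly k s).map (algebraMap k E)) ((minpoly.monic hint).map _) (fun i => ?_) ?_
  · rw [Polynomial.coeff_map, hO]
    by_cases hi : i ∈ Finset.range ((minpoly k s).natDegree + 1)
    · by_contra hcon
      apply hv
      rw [Set.mem_iUnion₂]
      refine ⟨i, hi, ?_⟩
      show 1 < v.valuation k ((minpoly k s).coeff i)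
      exact not_le.1 hcon
    · rw [Polynomial.coeff_eq_zero_of_natDegree_lt, map_zero]
      · exact zero_le_one
      · rw [Finset.mem_range] at hi
        omega
  · rw [Polynomial.eval_map, ← Polynomial.aeval_def, minpoly.aeval]

private theorem unit71 {s : E} (hs : s ≠ 0) : ∃ Bad : Set (Pr k), Bad.Finite ∧ ∀ v ∉ Bad, ∀ O : ValuationSubring E,
    OverV v O → O.valuation s = 1 := by
  obtain ⟨B₁, f₁, h₁⟩ := integral71 (k := k) s
  obtain ⟨B₂, f₂, h₂⟩ := integral71 (k := k) s⁻¹
  refine ⟨B₁ ∪ B₂, f₁.union f₂, fun v hv O hO => ?_⟩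
  have h3 := (ValuationSubring.valuation_le_one_iff O _).2 (h₁ v (fun h => hv (Or.inl h)) O hO)
  have h4 := (ValuationSubring.valuation_le_one_iff O _).2 (h₂ v (fun h => hv (Or.inr h)) O hO)
  refine le_antisymm h3 ?_
  rw [map_inv₀] at h4
  have h5 : O.valuation s ≠ 0 := (Valuation.ne_zero_iff _).2 hs
  exact (inv_le_one₀ (zero_lt_iff.2 h5)).1 h4

private theorem fix71 (c : E) : ∃ Bad : Set (Pr k), Bad.Finite ∧ ∀ v ∉ Bad, ∀ O : ValuationSubring E,
    OverV v O → ∀ τ : E ≃ₐ[k] E, Inert O τ.toRingEquiv → τ c = c := by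
  classical
  let D : Finset E := (((minpoly k c).map (algebraMap k E)).roots.toFinset.image fun d => d - c).erase 0
  obtain ⟨B₁, f₁, h₁⟩ := integral71 (k := k) c
  choose B f h using fun d : {d : E // d ≠ 0} => unit71 (k := k) d.2
  refine ⟨B₁ ∪ ⋃ d : D, B ⟨d.1, (Finset.mem_erase.1 d.2).1⟩, f₁.union (Set.finite_iUnion fun d => f _), fun v hv O hO τ hτ => ?_⟩
  by_contra hcon
  have h0 : τ c - c ≠ 0 := sub_ne_zero.2 hcon
  have h2 : τ c - c ∈ D := by
    refine Finset.mem_erase.2 ⟨h0, Finset.mem_image.2 ⟨τ c, ?_, rfl⟩⟩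
    have hne : (minpoly k c).map (algebraMap k E) ≠ 0 :=
      Polynomial.map_ne_zero (minpoly.ne_zero (Algebra.IsIntegral.isIntegral c))
    rw [Multiset.mem_toFinset, Polynomial.mem_roots hne]
    show Polynomial.eval (τ c) ((minpoly k c).map (algebraMap k E)) = 0
    rw [Polynomial.eval_map, ← Polynomial.aeval_def]
    have h3 := Polynomial.aeval_algHom_apply (τ : E →ₐ[k] E) c (minpoly k c)
    rw [minpoly.aeval, map_zero] at h3
    exact h3
  have h3 := h ⟨τ c - c, h0⟩ v (fun hh => hv (Or.inr (Set.mem_iUnion.2 ⟨⟨τ c - c, h2⟩, hh⟩))) O hO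
  have h4 := hτ.res c (h₁ v (fun h => hv (Or.inl h)) O hO)
  change O.valuation (τ c - c) < 1 at h4
  change O.valuation (τ c - c) = 1 at h3
  rw [h3] at h4
  exact absurd h4 (lt_irrefl _)

theorem stmtAR : StmtAR := by
  intro k E _ _ _ _ _ _ S C hS
  classical
  choose B f h using fun s : {s : E // s ≠ 0} => unit71 (k := k) s.2
  choose B' f' h' using fun c : E => fix71 (k := k) c
  refine ⟨(⋃ s : S, B ⟨s.1, hS s.1 s.2⟩) ∪ ⋃ c : C, B' c.1, (Set.finite_iUnion fun s => f _).union
    (Set.finite_iUnion fun c => f' _), fun v hv O hO => ⟨fun s hs => ?_, fun τ hτ c hc => ?_⟩⟩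
  · exact h ⟨s, hS s hs⟩ v (fun hh => hv (Or.inl (Set.mem_iUnion.2 ⟨⟨s, hs⟩, hh⟩))) O hO
  · exact h' c v (fun hh => hv (Or.inr (Set.mem_iUnion.2 ⟨⟨c, hc⟩, hh⟩))) O hO τ hτ

end Pool.Agent.L
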